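import Mathlib

/-!
# First occurrences of powers of two as smallest deficient multipliers (MP_bcda77_nt, Q1)

`sg k` is the sum of the divisors of `k`.  `A n` is the set of the positive integers `k` such that
`k` is deficient and `k * n` is not; `a(n)` is its least element.
-/

set_option autoImplicit false

namespace Pool.Agent.Results.MP_bcda77_nt.AlmostPerfectReduction

/-- The sum of the divisors of `m`. -/
def sg (m : ℕ) : ℕ := ∑ d ∈ m.divisors, d

/-- The positive integers `k` such that `k` is deficient and `k * n` is non-deficient. -/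
def A (n : ℕ) : Set ℕ := {k | 1 ≤ k ∧ sg k < 2 * k ∧ 2 * (k * n) ≤ sg (k * n)}

/-- `a(n) = v`: the least element of `A n` is `v`. -/
def Isa (n v : ℕ) : Prop := IsLeast (A n) v

/-- `p` is the smallest prime strictly greater than `2 ^ m`. -/
def IsP (m p : ℕ) : Prop := IsLeast {q : ℕ | q.Prime ∧ 2 ^ m < q} p

/-- `k` is almost perfect: `σ(k) = 2k - 1`. -/
def AlmostPerfect (k : ℕ) : Prop := sg k + 1 = 2 * k

theorem sg_mul {a b : ℕ} (h : Nat.Coprime a b) : sg (a * b) = sg a * sg b := by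
  have := (ArithmeticFunction.isMultiplicative_sigma (k := 1)).map_mul_of_coprime h
  simpa [ArithmeticFunction.sigma_one_apply, sg] using this

theorem sg_two_pow (m : ℕ) : sg (2 ^ m) + 1 = 2 ^ (m + 1) := by
  unfold sg
  rw [Nat.sum_divisors_prime_pow Nat.prime_two]
  induction m with
  | zero => simp
  | succ m ih =>
    rw [Finset.sum_range_succ]
    have : 2 ^ (m + 1 + 1) = 2 ^ (m + 1) + 2 ^ (m + 1) := by ring
    omega

theorem sg_prime {p : ℕ} (hp : p.Prime) : sg p = p + 1 := by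
  unfold sg
  rw [hp.divisors, Finset.sum_pair hp.one_lt.ne]
  ring

/-- If the least element of `A n` is `2 ^ m`, then `n` is at least the smallest prime above
`2 ^ m`. -/
theorem first_half (m : ℕ) (hm : 1 ≤ m) (p : ℕ) (hp : IsP m p) (n : ℕ) (hn : 2 ≤ n)
    (h : Isa n (2 ^ m)) : p ≤ n := by
  obtain ⟨j, u, hu, rfl⟩ := Nat.exists_eq_two_pow_mul_odd (n := n) (by omega)
  obtain ⟨t, rfl⟩ : ∃ t, m = t + 1 := ⟨m - 1, by omega⟩
  -- `2 ^ t` is not in the set
  have h1 : 2 ^ t ∉ A (2 ^ j * u) := by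
    intro h2
    have h3 := h.2 h2
    rw [pow_succ] at h3
    have : 0 < 2 ^ t := by positivity
    omega
  have hd := sg_two_pow t
  have hpos : 0 < 2 ^ t := by positivity
  have h2 : sg (2 ^ t * (2 ^ j * u)) < 2 * (2 ^ t * (2 ^ j * u)) := by
    by_contra h3
    apply h1
    refine ⟨hpos, ?_, not_lt.1 h3⟩
    rw [pow_succ] at hd
    omega
  have hcop : ∀ s : ℕ, Nat.Coprime (2 ^ s) u := fun s =>
    Nat.Coprime.pow_left s ((Nat.coprime_two_left).2 hu)
  have e1 : 2 ^ t * (2 ^ j * u) = 2 ^ (t + j) * u := by rw [pow_add]; ring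
  have e2 : 2 ^ (t + 1) * (2 ^ j * u) = 2 ^ (t + 1 + j) * u := by rw [pow_add (2 : ℕ) (t + 1) j]; ring
  have h4 := h.1.2.2
  rw [e2, sg_mul (hcop _)] at h4
  rw [e1, sg_mul (hcop _)] at h2
  have s1 := sg_two_pow (t + j)
  have s2 := sg_two_pow (t + 1 + j)
  -- `u` is not one
  have hu1 : u ≠ 1 := by
    rintro rfl
    have : sg 1 = 1 := by simp [sg]
    rw [this, mul_one, mul_one] at h4
    rw [pow_succ] at s2
    omega
  have hupos : 0 < u := hu.pos
  set q := u.minFac with hq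
  have hqp : q.Prime := Nat.minFac_prime hu1
  obtain ⟨w, hw⟩ := Nat.minFac_dvd u
  rw [← hq] at hw
  have hwpos : 0 < w := by
    rcases Nat.eq_zero_or_pos w with h0 | h0
    · rw [h0] at hw; omega
    · exact h0
  have hwu : w ≠ u := by
    intro h5
    have : u = q * u := by rw [← h5] at hw ⊢; exact hw
    have hq2 := hqp.two_le
    nlinarith
  have hsu : u + w ≤ sg u := by
    unfold sg
    have hsub : ({u, w} : Finset ℕ) ⊆ u.divisors := by
      intro x hx
      rw [Finset.mem_insert, Finset.mem_singleton] at hx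
      rw [Nat.mem_divisors]
      refine ⟨?_, hupos.ne'⟩
      rcases hx with rfl | rfl
      · exact dvd_rfl
      · exact ⟨q, by rw [mul_comm]; exact hw⟩
    calc u + w = ∑ d ∈ ({u, w} : Finset ℕ), d := by rw [Finset.sum_pair (Ne.symm hwu)]
      _ ≤ ∑ d ∈ u.divisors, d := Finset.sum_le_sum_of_subset hsub
  -- `2 ^ (t + j + 1) ≤ q`
  have hN : 2 ^ (t + j + 1) ≤ q := by
    by_contra hlt
    rw [not_le] at hlt
    have h5 : (2 ^ (t + j + 1) - 1) * (u + w) ≤ sg (2 ^ (t + j)) * sg u :=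
      Nat.mul_le_mul (by omega) hsu
    have h6 : (2 ^ (t + j + 1) - 1) * (u + w) < 2 ^ (t + j + 1) * u := by
      calc _ ≤ _ := h5
        _ < 2 * (2 ^ (t + j) * u) := h2
        _ = _ := by rw [pow_succ]; ring
    set N := 2 ^ (t + j + 1) with hNdef
    have hN1 : 1 ≤ N := Nat.one_le_two_pow
    obtain ⟨M, hM⟩ : ∃ M, N = M + 1 := ⟨N - 1, by omega⟩
    rw [hM] at h6 hlt
    simp only [Nat.add_sub_cancel] at h6
    -- M (u + w) < (M + 1) u, so M w < u = q w, M < q ≤ M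
    have h7 : M * w < u := by nlinarith
    rw [hw] at h7
    have h8 : M < q := lt_of_mul_lt_mul_right h7 (Nat.zero_le w)
    omega
  have hodd : q ≠ 2 ^ (t + j + 1) := by
    intro h5
    have h6 : 2 ∣ q := by rw [h5, pow_succ]; exact Dvd.intro_left _ rfl
    have h7 : 2 ∣ u := h6.trans (Nat.minFac_dvd u)
    exact (Nat.not_even_iff_odd.2 hu) (even_iff_two_dvd.2 h7)
  have hlt : 2 ^ (t + 1) < q := by
    have h5 : 2 ^ (t + 1) ≤ 2 ^ (t + j + 1) := Nat.pow_le_pow_right (by norm_num) (by omega)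
    omega
  have hpq : p ≤ q := hp.2 ⟨hqp, hlt⟩
  have hqu : q ≤ u := Nat.minFac_le hupos
  have : u ≤ 2 ^ j * u := Nat.le_mul_of_pos_left u (by positivity)
  omega

/-- `a(p) = 2 ^ m` for the smallest prime `p` above `2 ^ m`, unless there is an almost perfect
number between `(p + 1) / 2` and `2 ^ m`. -/
theorem second_half (m : ℕ) (hm : 1 ≤ m) (p : ℕ) (hp : IsP m p) :
    Isa p (2 ^ m) ↔ ¬ ∃ k, p + 1 ≤ 2 * k ∧ k < 2 ^ m ∧ AlmostPerfect k := by
  have hpp : p.Prime := hp.1.1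
  have hlt : 2 ^ m < p := hp.1.2
  have hb : p < 2 ^ (m + 1) := by
    obtain ⟨q, hq1, hq2, hq3⟩ := Nat.exists_prime_lt_and_le_two_mul (2 ^ m) (by positivity)
    have h1 : p ≤ q := hp.2 ⟨hq1, hq2⟩
    have h2 : q ≤ 2 ^ (m + 1) := by rw [pow_succ]; omega
    have h3 : p ≠ 2 ^ (m + 1) := by
      intro h4
      have : 2 ∣ p := by rw [h4, pow_succ]; exact Dvd.intro_left _ rfl
      have h5 := (Nat.prime_dvd_prime_iff_eq Nat.prime_two hpp).1 this
      have : 2 ^ 1 ≤ 2 ^ m := Nat.pow_le_pow_right (by norm_num) hm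
      omega
    omega
  -- the description of the members of `A p` below `p`
  have key : ∀ k, 1 ≤ k → k < p → sg (k * p) = sg k * (p + 1) := by
    intro k hk1 hk2
    rw [sg_mul, sg_prime hpp]
    refine (Nat.Coprime.symm ?_)
    rw [Nat.Prime.coprime_iff_not_dvd hpp]
    intro h
    have := Nat.le_of_dvd hk1 h
    omega
  have hmem : 2 ^ m ∈ A p := by
    have h1 := sg_two_pow m
    have hpos : 1 ≤ 2 ^ m := Nat.one_le_two_pow
    refine ⟨hpos, by rw [pow_succ] at h1; omega, ?_⟩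
    rw [key _ hpos hlt]
    have h2 : sg (2 ^ m) = 2 ^ (m + 1) - 1 := by omega
    obtain ⟨N, hN⟩ : ∃ N, 2 ^ (m + 1) = N + 1 := ⟨2 ^ (m + 1) - 1, by omega⟩
    rw [h2]
    have h3 : 2 * (2 ^ m * p) = 2 ^ (m + 1) * p := by rw [pow_succ]; ring
    rw [h3, hN, Nat.add_sub_cancel]
    have h4 : p ≤ N := by omega
    nlinarith
  have hlow : ∀ k, k < 2 ^ m → (k ∈ A p ↔ p + 1 ≤ 2 * k ∧ AlmostPerfect k) := by
    intro k hk
    constructor
    · rintro ⟨h1, h2, h3⟩
      rw [key k h1 (by omega)] at h3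
      obtain ⟨t, ht⟩ : ∃ t, sg k + 1 + t = 2 * k := ⟨2 * k - (sg k + 1), by omega⟩
      have h4 : 2 * k * p ≤ sg k * (p + 1) := by
        calc 2 * k * p = 2 * (k * p) := by ring
          _ ≤ _ := h3
      have h5 : (sg k + 1 + t) * p ≤ sg k * (p + 1) := by rw [ht]; exact h4
      have h6 : (1 + t) * p ≤ sg k := by nlinarith
      have ht0 : t = 0 := by
        by_contra hne
        have h7 : 2 ≤ 1 + t := by omega
        have h8 : 2 * p ≤ (1 + t) * p := Nat.mul_le_mul_right p h7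
        omega
      subst ht0
      refine ⟨by omega, by unfold AlmostPerfect; omega⟩
    · rintro ⟨h1, h2⟩
      unfold AlmostPerfect at h2
      have hk1 : 1 ≤ k := by omega
      refine ⟨hk1, by omega, ?_⟩
      rw [key k hk1 (by omega)]
      obtain ⟨S, hS⟩ : ∃ S, sg k = S := ⟨_, rfl⟩
      rw [hS] at h2 ⊢
      have h5 : 2 * (k * p) = (S + 1) * p := by rw [h2]; ring
      rw [h5]
      have h6 : p ≤ S := by omega
      nlinarith
  constructor
  · rintro h ⟨k, h1, h2, h3⟩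
    have := h.2 ((hlow k h2).2 ⟨h1, h3⟩)
    omega
  · intro h
    refine ⟨hmem, ?_⟩
    intro k hk
    by_contra hlt'
    rw [not_le] at hlt'
    obtain ⟨h1, h2⟩ := (hlow k hlt').1 hk
    exact h ⟨k, h1, hlt', h2⟩

theorem exists_p (m : ℕ) : ∃ p, IsP m p := by
  obtain ⟨q, hq1, hq2, _⟩ := Nat.exists_prime_lt_and_le_two_mul (2 ^ m) (by positivity)
  have hne : {q : ℕ | q.Prime ∧ 2 ^ m < q}.Nonempty := ⟨q, hq1, hq2⟩
  exact ⟨sInf _, Nat.sInf_mem hne, fun x hx => Nat.sInf_le hx⟩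

/-- (1) For all `m ≥ 1`, no `n` with `2 ≤ n < p_m` has `a(n) = 2 ^ m` (one half of the
conjecture, with no hypothesis).
(2) For every `m ≥ 1`, the least `n ≥ 2` with `a(n) = 2 ^ m` is `p_m` if and only if there is no
almost perfect number `k` with `(p_m + 1) / 2 ≤ k < 2 ^ m` (such a `k` is not a power of 2).
(3) The conjecture (for all `m ≥ 1`) is equivalent to the nonexistence of almost perfect numbers
in all the intervals `[(p_m + 1) / 2, 2 ^ m)`. -/
theorem result :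
    (∀ m, 1 ≤ m → ∀ p, IsP m p → ∀ n, 2 ≤ n → n < p → ¬ Isa n (2 ^ m)) ∧
    (∀ m, 1 ≤ m → ∀ p, IsP m p →
      (IsLeast {n | 2 ≤ n ∧ Isa n (2 ^ m)} p ↔
        ¬ ∃ k, p + 1 ≤ 2 * k ∧ k < 2 ^ m ∧ AlmostPerfect k)) ∧
    ((∀ m, 1 ≤ m → ∀ p, IsP m p → IsLeast {n | 2 ≤ n ∧ Isa n (2 ^ m)} p) ↔
      ∀ m, 1 ≤ m → ∀ p, IsP m p → ∀ k, AlmostPerfect k → p + 1 ≤ 2 * k → 2 ^ m ≤ k) ∧
    (∀ m, ∃ p, IsP m p) ∧
    (∀ m p k j, 1 ≤ m → IsP m p → p + 1 ≤ 2 * k → k < 2 ^ m → k ≠ 2 ^ j) := by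
  have h1 : ∀ m, 1 ≤ m → ∀ p, IsP m p → ∀ n, 2 ≤ n → n < p → ¬ Isa n (2 ^ m) := by
    intro m hm p hp n hn hnp h
    have := first_half m hm p hp n hn h
    omega
  have h2 : ∀ m, 1 ≤ m → ∀ p, IsP m p →
      (IsLeast {n | 2 ≤ n ∧ Isa n (2 ^ m)} p ↔
        ¬ ∃ k, p + 1 ≤ 2 * k ∧ k < 2 ^ m ∧ AlmostPerfect k) := by
    intro m hm p hp
    rw [← second_half m hm p hp]
    constructor
    · intro h
      exact h.1.2
    · intro h
      refine ⟨⟨hp.1.1.two_le, h⟩, ?_⟩
      rintro n ⟨hn, hn2⟩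
      exact first_half m hm p hp n hn hn2
  refine ⟨h1, h2, ?_, exists_p, ?_⟩
  · constructor
    · intro h m hm p hp k hk hk2
      by_contra hlt
      rw [not_le] at hlt
      exact (h2 m hm p hp).1 (h m hm p hp) ⟨k, hk2, hlt, hk⟩
    · intro h m hm p hp
      rw [h2 m hm p hp]
      rintro ⟨k, hk1, hk2, hk3⟩
      have := h m hm p hp k hk3 hk1
      omega
  · rintro m p k j hm hp hk1 hk2 rfl
    have h3 : 2 ^ m < p := hp.1.2
    obtain ⟨t, rfl⟩ : ∃ t, m = t + 1 := ⟨m - 1, by omega⟩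
    have h4 : j < t + 1 := (Nat.pow_lt_pow_iff_right (by norm_num)).1 hk2
    have h5 : 2 ^ j ≤ 2 ^ t := Nat.pow_le_pow_right (by norm_num) (by omega)
    rw [pow_succ] at h3
    omega

end Pool.Agent.Results.MP_bcda77_nt.AlmostPerfectReduction
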